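import Pool.Agent.H87.GHK.JKG
import Pool.Agent.H52.GHK.HKG

set_option autoImplicit false

namespace Pool.Agent.H87.GHK

theorem pf_JKG : Pool.Agent.H52.GHK.T_JKG := fun m hm => JK.jkg m hm

end Pool.Agent.H87.GHK
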