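import Pool.Agent.H87.GHK.NSP2
import Pool.Agent.H68.GHK.Targets

set_option autoImplicit false

namespace Pool.Agent.H87.GHK

theorem pf_NSP : Pool.Agent.H68.GHK.T_NSP := fun N A c hc => nsp2 N A c hc

end Pool.Agent.H87.GHK
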